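import Mathlib
import Pool.Agent.Lib.H80Pseudo.CaseC4

/-!
# Every infinite pseudocompact abelian group has a non selectively pseudocompact topology

We prove in ZFC that every infinite abelian group which admits a pseudocompact Hausdorff group
topology admits one which is not selectively pseudocompact (Q1 of the problem, full answer).

Outline.  Let `r` be the torsion-free rank of `G` and let `𝔠` be the continuum.

* Join theorem (`PseudocompactSp.joinTop`): adding to a pseudocompact (perhaps non Hausdorff) group
  topology a family of characters that is strongly independent over it (on the intersection of
  countably many neighbourhoods of zero, countably many of the characters take arbitrarily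
  prescribed values) keeps the group pseudocompact.
* `exists_family`: on a group `P` of cardinality `𝔠` with an independent family of `𝔠` elements
  of the same order there are strongly independent families of characters such that, moreover, every
  character of `P` agrees on every countable subset with a member of the family.
* Killing lemma (`exists_killing`, `not_selectivelyPseudocompact`): if the topology of `G` makes all
  characters `f_α ∘ π`, `π : G → P`, continuous then `G` is not selectively pseudocompact: the open
  sets `U_n = {‖f_m (π x)‖ < 1/(100(n+1)) for m < n, ‖f_n (π x) - a‖ < 1/100}` do not admit
  a selection with an accumulation point.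
* Case (a), `r > 𝔠`: a Baire type argument produces a `G_δ`-dense subgroup on which suitable
  projections to a rational vector space of cardinality `𝔠` vanish; add the characters pulled back
  along this projection to the given topology.
* Case (b), some quotient `(p^i G)[p] / (p^(i+1) G)[p]` has at least `𝔠` elements: then `G` is
  isomorphic to `(ℤ/p^(i+1))^(𝔠) × G`; use the product topology.
* Case (c), otherwise: then `r = 𝔠` and the torsion part has at most `2^(2^𝔠)` elements, and
  there is a topology generated by `2^𝔠` characters.
-/

open Topology

universe u

namespace Pool.Agent.Results.MP_b5ec3e_gt.NonSelectivePseudocompact

open Pool.Agent.H80Pseudo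

/-- **Q1, positive answer in ZFC.**  Every infinite abelian group that admits a pseudocompact
Hausdorff group topology admits a pseudocompact Hausdorff group topology that is not selectively
pseudocompact. -/
theorem result (G : Type u) [AddCommGroup G] [Infinite G]
    (hG : ∃ t : TopologicalSpace G,
      @IsTopologicalAddGroup G t _ ∧ @T2Space G t ∧ @PseudocompactSp G t) :
    ∃ t : TopologicalSpace G,
      @IsTopologicalAddGroup G t _ ∧ @T2Space G t ∧ @PseudocompactSp G t ∧
        ¬ @SelectivelyPseudocompactSp G t := by
  obtain ⟨t, h1, h2, h3⟩ := hG
  exact hasNonSel_of_pseudocompact h3

end Pool.Agent.Results.MP_b5ec3e_gt.NonSelectivePseudocompact
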