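import Mathlib
import Pool.Agent.Lib.H50RF.A4
import Pool.Agent.Lib.H8Q.M10

/-!
# Every infinite pseudocompact abelian group has a reflexive non selectively pseudocompact topology

We prove in ZFC that every infinite abelian group `G` which admits a pseudocompact Hausdorff group
topology admits one which is Pontryagin reflexive and not selectively pseudocompact (Q2 of the
problem, full answer; it contains Q1).

Outline.  Write `𝕋 = ℝ/ℤ`, and call a group `H` of characters `G → 𝕋` good on a subgroup `W` if

* (ev) every character of a countable subgroup of `H` is the evaluation at some point of `G`;
* (ext) every character of a countable subgroup of `W` is the restriction of a member of `H`;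
* (pc) the topology of `G` generated by `H` is pseudocompact.

Part A (`H50RF`, `partA`).  If `H` is good on `G` then the topology generated by `H` is as wanted.
By (ext) it is Hausdorff and its compact sets are finite (all the countable subgroups are
h-embedded), by (ev) the same holds for `H` with the topology of pointwise convergence on `G`.
Hence both duals carry the topology of pointwise convergence; by (ev) and the duality between a
group and the compact group of all its characters, the dual of `G` is `H` and the dual of `H` is `G`,
so `G` is reflexive (`isReflexive_TB`).  It is not selectively pseudocompact (`not_sel`): there are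
`f_n` in `H` and a point `α` of `𝕋` far from zero such that the open sets
`U_n = {‖f_m x‖ < 1/(100(n+1)) for m < n, ‖f_n x - α‖ < 1/100}` are nonempty, and by (ext) a choice
of points of the `U_n` has no accumulation point.

Part B (`H8Q`, `H43P`).  There is an `H` which is good on `G`.

* Numbers (`H43P`, `numbers1`, `numbers2`).  Let `ODense Y K` say that some family of functions
  `K → {0, 1}` indexed by `Y` takes every pattern on every countable subset of `K`.  If `n G` is
  infinite there is `K` with `ODense (n G) K` and `|n G| ≤ 2 ^ |K|`; if all `n G` (`n > 0`) are
  infinite then for some `n₀ > 0` there are `K` with `|n₀ G| ≤ 2 ^ |K|`, elements `b i` (`i ∈ ι`) of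
  `G` and a homomorphism `ψ` from `G` to the direct sum of `ι` copies of `ℚ` which maps them to the
  basis, with `ODense ι K`.
* Block theorem (`H8Q`, `block`).  Let `Y`, `K` be as above and let `b y` (`y ∈ Y`) be elements of `G`
  mapped to the basis of a direct sum of copies of `ℤ/e` (or `ℚ`, `e = 0`) by a homomorphism `π`.  Given
  characters `a k` (`k ∈ K`) with `e a k = 0` there are characters `F i` with `e F i = 0` such that
  for each countable set of indices `i` and all values `v i` with `e v i = 0` some `y` satisfies
  `F i (b y) = v i`, and every character of a countable subgroup which vanishes at all its points
  killed by all the `a k` is the restriction of some `F i`.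
* Induction (`good_rec`): if `n₀ = k m` then some `H` is good on `k G`.  If `|k G| = |n₀ G|` use the
  block with `e = 0`; if `k G` is finite use finitely many characters; if `|n₀ G| < |k G|` then for
  some prime power `e` the group `G` has a direct summand which is a direct sum of `|k G|` copies of
  `ℤ/e`; use the block with this `e` and the induction hypothesis for the complement.
-/

open Topology

universe u

namespace Pool.Agent.Results.MP_b5ec3e_gt.ReflexiveTopology

open Pool.Agent.H80Pseudo Pool.Agent.H50RF

/-- **Q2, positive answer in ZFC.**  Every infinite abelian group that admits a pseudocompact
Hausdorff group topology admits a Hausdorff group topology that is pseudocompact, not selectively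
pseudocompact and Pontryagin reflexive. -/
theorem result (G : Type u) [AddCommGroup G] [Infinite G]
    (hG : ∃ t : TopologicalSpace G,
      @IsTopologicalAddGroup G t _ ∧ @T2Space G t ∧ @PseudocompactSp G t) :
    ∃ t : TopologicalSpace G,
      @IsTopologicalAddGroup G t _ ∧ @T2Space G t ∧ @PseudocompactSp G t ∧
        ¬ @SelectivelyPseudocompactSp G t ∧ @IsReflexive G _ t := by
  obtain ⟨t, h1, h2, h3⟩ := hG
  obtain ⟨H, hH⟩ := Pool.Agent.H8Q.exists_goodOn h3
  exact partA hH

end Pool.Agent.Results.MP_b5ec3e_gt.ReflexiveTopology
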